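import Pool.Agent.Helper94.SY.St

/-!
# Project SY (MP_5c9371_al), module FI (final numerics and assembly)
-/

set_option autoImplicit false

namespace Pool.Agent.Helper8.SY

open Pool.Agent.Helper94.SY Finset
open scoped Classical
open scoped LinearAlgebra.Projectivization
open Pool.Agent.Helper1.PFS (G rmul lineSum StA)
open Pool.Agent.Helper70.EC (nsq PF TT StT2 Pt)

/-! ### Numerics -/

private theorem numB (p n : ℝ) (hp : 0 < p) (hn : 0 < n) (hnp : n ≤ p ^ 3) :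
    n ≤ p ^ (2 / 5 : ℝ) * n ^ (13 / 15 : ℝ) := by
  have h1 : n = n ^ (2 / 15 : ℝ) * n ^ (13 / 15 : ℝ) := by
    rw [← Real.rpow_add hn]
    norm_num
  have h2 : n ^ (2 / 15 : ℝ) ≤ p ^ (2 / 5 : ℝ) := by
    have h3 : n ^ (2 / 15 : ℝ) ≤ (p ^ 3) ^ (2 / 15 : ℝ) :=
      Real.rpow_le_rpow hn.le hnp (by norm_num)
    have h4 : (p ^ 3) ^ (2 / 15 : ℝ) = p ^ (2 / 5 : ℝ) := by
      rw [← Real.rpow_natCast p 3, ← Real.rpow_mul hp.le]
      norm_num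
    rwa [h4] at h3
  calc n = n ^ (2 / 15 : ℝ) * n ^ (13 / 15 : ℝ) := h1
    _ ≤ p ^ (2 / 5 : ℝ) * n ^ (13 / 15 : ℝ) :=
        mul_le_mul_of_nonneg_right h2 (Real.rpow_nonneg hn.le _)

private theorem numC (p n : ℝ) (hp : 40000 ≤ p) (hn : 0 < n) (hnp : p ^ 3 ≤ 4 / 3 * n) :
    100 * ((40000 / p) ^ (1 / 5 : ℝ)) ^ (-(1 / 2) : ℝ) * n ^ (5 / 6 : ℝ) ≤
      100 * n ^ (13 / 15 : ℝ) := by
  have hp0 : 0 < p := by linarith
  have hq : 0 < p / 40000 := by positivity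
  have h1 : ((40000 / p) ^ (1 / 5 : ℝ)) ^ (-(1 / 2) : ℝ) = ((p / 40000) ^ 3) ^ (1 / 30 : ℝ) := by
    rw [← Real.rpow_mul (by positivity), ← Real.rpow_natCast (p / 40000) 3,
      ← Real.rpow_mul hq.le]
    have e : (40000 / p) = (p / 40000)⁻¹ := by rw [inv_div]
    rw [e, Real.inv_rpow hq.le, ← Real.rpow_neg hq.le]
    norm_num
  have h2 : ((p / 40000) ^ 3) ^ (1 / 30 : ℝ) ≤ n ^ (1 / 30 : ℝ) := by
    apply Real.rpow_le_rpow (by positivity) _ (by norm_num)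
    rw [div_pow, div_le_iff₀ (by positivity)]
    nlinarith
  have h3 : n ^ (13 / 15 : ℝ) = n ^ (1 / 30 : ℝ) * n ^ (5 / 6 : ℝ) := by
    rw [← Real.rpow_add hn]
    norm_num
  rw [h1, h3]
  have h4 : 0 ≤ n ^ (5 / 6 : ℝ) := Real.rpow_nonneg hn.le _
  nlinarith [mul_le_mul_of_nonneg_right h2 h4]

private theorem numD (p n t y : ℝ) (hp : 40000 ≤ p) (hn : 0 < n) (hnp : p ^ 3 ≤ 4 / 3 * n)
    (ht : 0 < t)
    (hy : y ≤ (40 / t) ^ (2 / 3 : ℝ) * p ^ (7 / 3 : ℝ) *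
      (2 * (40000 / p) ^ (1 / 5 : ℝ) * p) ^ (1 / 3 : ℝ)) :
    2 * y ≤ 84 * (t ^ (-(2 / 3) : ℝ) * n ^ (13 / 15 : ℝ)) := by
  have hp0 : 0 < p := by linarith
  have e1 : (40 / t) ^ (2 / 3 : ℝ) = (1600 : ℝ) ^ (1 / 3 : ℝ) * t ^ (-(2 / 3) : ℝ) := by
    rw [Real.div_rpow (by norm_num) ht.le, Real.rpow_neg ht.le, div_eq_mul_inv]
    congr 1
    rw [show (1600 : ℝ) = 40 ^ (2 : ℕ) by norm_num, ← Real.rpow_natCast (40 : ℝ) 2,
      ← Real.rpow_mul (by norm_num)]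
    norm_num
  have e2 : (2 * (40000 / p) ^ (1 / 5 : ℝ) * p) ^ (1 / 3 : ℝ) =
      (2 : ℝ) ^ (1 / 3 : ℝ) * (40000 : ℝ) ^ (1 / 15 : ℝ) * p ^ (4 / 15 : ℝ) := by
    rw [Real.mul_rpow (by positivity) hp0.le, Real.mul_rpow (by norm_num) (by positivity),
      ← Real.rpow_mul (by positivity), Real.div_rpow (by norm_num) hp0.le]
    have e3 : p ^ (4 / 15 : ℝ) = p ^ (1 / 3 : ℝ) / p ^ (1 / 15 : ℝ) := by
      rw [← Real.rpow_sub hp0]
      norm_num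
    rw [e3]
    norm_num
    ring
  have e4 : p ^ (7 / 3 : ℝ) * p ^ (4 / 15 : ℝ) = (p ^ 3) ^ (13 / 15 : ℝ) := by
    rw [← Real.rpow_add hp0, ← Real.rpow_natCast p 3, ← Real.rpow_mul hp0.le]
    norm_num
  have c1 : (1600 : ℝ) ^ (1 / 3 : ℝ) * (2 : ℝ) ^ (1 / 3 : ℝ) ≤ 15 := by
    rw [← Real.mul_rpow (by norm_num) (by norm_num)]
    have h : (1600 * 2 : ℝ) ^ (1 / 3 : ℝ) ≤ ((15 : ℝ) ^ (3 : ℕ)) ^ (1 / 3 : ℝ) :=
      Real.rpow_le_rpow (by norm_num) (by norm_num) (by norm_num)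
    rw [← Real.rpow_natCast (15 : ℝ) 3, ← Real.rpow_mul (by norm_num)] at h
    norm_num at h ⊢
    exact h
  have c2 : (40000 : ℝ) ^ (1 / 15 : ℝ) ≤ 21 / 10 := by
    have h : (40000 : ℝ) ^ (1 / 15 : ℝ) ≤ (((21 / 10 : ℝ)) ^ (15 : ℕ)) ^ (1 / 15 : ℝ) :=
      Real.rpow_le_rpow (by norm_num) (by norm_num) (by norm_num)
    rw [← Real.rpow_natCast (21 / 10 : ℝ) 15, ← Real.rpow_mul (by norm_num)] at h
    norm_num at h ⊢
    exact h
  have c3 : (p ^ 3) ^ (13 / 15 : ℝ) ≤ 4 / 3 * n ^ (13 / 15 : ℝ) := by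
    have h1 : (p ^ 3) ^ (13 / 15 : ℝ) ≤ (4 / 3 * n) ^ (13 / 15 : ℝ) :=
      Real.rpow_le_rpow (by positivity) hnp (by norm_num)
    rw [Real.mul_rpow (by norm_num) hn.le] at h1
    have h2 : (4 / 3 : ℝ) ^ (13 / 15 : ℝ) ≤ 4 / 3 := by
      have h3 : (4 / 3 : ℝ) ^ (13 / 15 : ℝ) ≤ (4 / 3 : ℝ) ^ (1 : ℝ) :=
        Real.rpow_le_rpow_of_exponent_le (by norm_num) (by norm_num)
      rwa [Real.rpow_one] at h3
    exact le_trans h1 (mul_le_mul_of_nonneg_right h2 (Real.rpow_nonneg hn.le _))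
  have hT : 0 ≤ t ^ (-(2 / 3) : ℝ) := Real.rpow_nonneg ht.le _
  have hN : 0 ≤ n ^ (13 / 15 : ℝ) := Real.rpow_nonneg hn.le _
  rw [e1, e2] at hy
  have h5 : (1600 : ℝ) ^ (1 / 3 : ℝ) * t ^ (-(2 / 3) : ℝ) * p ^ (7 / 3 : ℝ) *
      ((2 : ℝ) ^ (1 / 3 : ℝ) * (40000 : ℝ) ^ (1 / 15 : ℝ) * p ^ (4 / 15 : ℝ)) =
      ((1600 : ℝ) ^ (1 / 3 : ℝ) * (2 : ℝ) ^ (1 / 3 : ℝ)) * (40000 : ℝ) ^ (1 / 15 : ℝ) *
        (t ^ (-(2 / 3) : ℝ) * (p ^ (7 / 3 : ℝ) * p ^ (4 / 15 : ℝ))) := by ring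
  rw [h5, e4] at hy
  have h6 : ((1600 : ℝ) ^ (1 / 3 : ℝ) * (2 : ℝ) ^ (1 / 3 : ℝ)) * (40000 : ℝ) ^ (1 / 15 : ℝ) *
        (t ^ (-(2 / 3) : ℝ) * (p ^ 3) ^ (13 / 15 : ℝ)) ≤
      (15 * (21 / 10)) * (t ^ (-(2 / 3) : ℝ) * (4 / 3 * n ^ (13 / 15 : ℝ))) := by
    gcongr
  have h7 : 2 * y ≤ 2 * ((15 * (21 / 10)) * (t ^ (-(2 / 3) : ℝ) * (4 / 3 * n ^ (13 / 15 : ℝ)))) := by
    linarith
  refine le_trans h7 (le_of_eq ?_)
  ring

private theorem numE (p t : ℝ) (hp : 40000 ≤ p) (ht : 0 < t)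
    (h : p ^ 3 < 1600 * (2 * (40000 / p) ^ (1 / 5 : ℝ) * p) * p / t ^ 2) :
    p ^ (2 / 5 : ℝ) ≤ 30 * t ^ (-(2 / 3) : ℝ) := by
  have hp0 : 0 < p := by linarith
  have ht2 : 0 < t ^ 2 := by positivity
  rw [lt_div_iff₀ ht2] at h
  have c2 : (40000 : ℝ) ^ (1 / 5 : ℝ) ≤ 42 / 5 := by
    have h1 : (40000 : ℝ) ^ (1 / 5 : ℝ) ≤ (((42 / 5 : ℝ)) ^ (5 : ℕ)) ^ (1 / 5 : ℝ) :=
      Real.rpow_le_rpow (by norm_num) (by norm_num) (by norm_num)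
    rw [← Real.rpow_natCast (42 / 5 : ℝ) 5, ← Real.rpow_mul (by norm_num)] at h1
    norm_num at h1 ⊢
    exact h1
  have hs : (40000 / p) ^ (1 / 5 : ℝ) = (40000 : ℝ) ^ (1 / 5 : ℝ) / p ^ (1 / 5 : ℝ) :=
    Real.div_rpow (by norm_num) hp0.le _
  set P := p ^ (1 / 5 : ℝ) with hP
  have hP0 : 0 < P := Real.rpow_pos_of_pos hp0 _
  have hP5 : P ^ 5 = p := by
    rw [hP, ← Real.rpow_natCast, ← Real.rpow_mul hp0.le]
    norm_num
  -- P^6 t^2 < 3200 * 40000^(1/5)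
  have h2 : P ^ 6 * t ^ 2 ≤ 27000 := by
    rw [hs] at h
    have h3 : P ^ 15 * t ^ 2 * P < 3200 * (40000 : ℝ) ^ (1 / 5 : ℝ) * P ^ 10 := by
      have e1 : 1600 * (2 * ((40000 : ℝ) ^ (1 / 5 : ℝ) / P) * p) * p =
          3200 * (40000 : ℝ) ^ (1 / 5 : ℝ) * p ^ 2 / P := by
        field_simp
        ring
      rw [e1, lt_div_iff₀ hP0] at h
      have e2 : p ^ 3 = P ^ 15 := by rw [← hP5]; ring
      have e3 : p ^ 2 = P ^ 10 := by rw [← hP5]; ring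
      rw [e2, e3] at h
      exact h
    have h4 : P ^ 10 * (P ^ 6 * t ^ 2) < P ^ 10 * (3200 * (40000 : ℝ) ^ (1 / 5 : ℝ)) := by
      calc P ^ 10 * (P ^ 6 * t ^ 2) = P ^ 15 * t ^ 2 * P := by ring
        _ < 3200 * (40000 : ℝ) ^ (1 / 5 : ℝ) * P ^ 10 := h3
        _ = P ^ 10 * (3200 * (40000 : ℝ) ^ (1 / 5 : ℝ)) := by ring
    have h5 := lt_of_mul_lt_mul_left h4 (by positivity)
    linarith
  -- cube
  set A := p ^ (2 / 5 : ℝ) * t ^ (2 / 3 : ℝ) with hA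
  have hA0 : 0 ≤ A := by positivity
  have hA3 : A ^ 3 = P ^ 6 * t ^ 2 := by
    rw [hA, mul_pow]
    congr 1
    · rw [hP, ← Real.rpow_natCast, ← Real.rpow_natCast, ← Real.rpow_mul hp0.le,
        ← Real.rpow_mul hp0.le]
      norm_num
    · rw [← Real.rpow_natCast, ← Real.rpow_mul ht.le]
      norm_num
  have hA30 : A ≤ 30 := by
    by_contra hcon
    push Not at hcon
    have : (30 : ℝ) ^ 3 < A ^ 3 := by gcongr
    rw [hA3] at this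
    norm_num at this
    linarith
  have e5 : p ^ (2 / 5 : ℝ) = A * t ^ (-(2 / 3) : ℝ) := by
    rw [hA, mul_assoc, ← Real.rpow_add ht]
    norm_num
  rw [e5]
  exact mul_le_mul_of_nonneg_right hA30 (Real.rpow_nonneg ht.le _)

private theorem numP (p t : ℝ) (hp0 : 0 ≤ p) (hp : p ≤ 40000) (ht : 0 < t) (ht1 : t ≤ 1) :
    p ^ (2 / 5 : ℝ) ≤ 200 * t ^ (-(2 / 3) : ℝ) := by
  have h1 : p ^ (2 / 5 : ℝ) ≤ ((200 : ℝ) ^ (5 / 2 : ℝ)) ^ (2 / 5 : ℝ) := by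
    apply Real.rpow_le_rpow hp0 _ (by norm_num)
    have h2 : (200 : ℝ) ^ (2 : ℝ) ≤ (200 : ℝ) ^ (5 / 2 : ℝ) :=
      Real.rpow_le_rpow_of_exponent_le (by norm_num) (by norm_num)
    have h3 : (200 : ℝ) ^ (2 : ℝ) = 40000 := by
      rw [show (2 : ℝ) = ((2 : ℕ) : ℝ) by norm_num, Real.rpow_natCast]
      norm_num
    linarith
  rw [← Real.rpow_mul (by norm_num)] at h1
  have h4 : (200 : ℝ) ^ ((5 / 2 : ℝ) * (2 / 5)) = 200 := by norm_num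
  rw [h4] at h1
  have h5 : 1 ≤ t ^ (-(2 / 3) : ℝ) := Real.one_le_rpow_of_pos_of_le_one_of_nonpos ht ht1 (by norm_num)
  linarith

/-! ### Rows -/

private theorem rmul_ne {p : ℕ} [Fact p.Prime] (r : W p) (g : G p) (hr : r ≠ 0) :
    rmul r g ≠ 0 := by
  intro h
  apply hr
  have hd : g.1 0 0 * g.1 1 1 - g.1 0 1 * g.1 1 0 = 1 := by
    have := g.2
    rwa [Matrix.det_fin_two] at this
  have h1 : r.1 * g.1 0 0 + r.2 * g.1 1 0 = 0 := congrArg Prod.fst h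
  have h2 : r.1 * g.1 0 1 + r.2 * g.1 1 1 = 0 := congrArg Prod.snd h
  refine Prod.ext ?_ ?_
  · show r.1 = 0
    linear_combination (-r.1) * hd + g.1 1 1 * h1 - g.1 1 0 * h2
  · show r.2 = 0
    linear_combination (-r.2) * hd - g.1 0 1 * h1 + g.1 0 0 * h2

private theorem dl_le (hLN : StLN) {p : ℕ} [Fact p.Prime] (S : Finset (G p)) (r v : W p)
    (hr : r ≠ 0) (hv : v ≠ 0) : dl S r v ≤ p := by
  rw [← hLN p r v hr hv]
  unfold dl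
  exact Finset.sum_le_sum_of_subset_of_nonneg (Finset.subset_univ _)
    (fun g _ _ => by split_ifs <;> norm_num)

theorem hFI : StLN → StDN → StNU → StLT → StHV → StSW → StT2 → StFI := by
  intro hLN hDN hNU hLT hHV hSW hT2 p _ S hpf s hs
  have hp2 : 2 ≤ p := (Fact.out : p.Prime).two_le
  have hpr : (2 : ℝ) ≤ p := by exact_mod_cast hp2
  have hp0 : (0 : ℝ) < p := by linarith
  have hp1 : 1 ≤ p ^ 2 := Nat.one_le_pow _ _ (by omega)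
  set n : ℝ := ((p * (p ^ 2 - 1) : ℕ) : ℝ) with hn
  have hneq : n = (p : ℝ) * ((p : ℝ) ^ 2 - 1) := by
    rw [hn]
    push_cast [Nat.cast_sub hp1]
    ring
  have hn0 : 0 < n := by
    rw [hneq]
    have : 0 < (p : ℝ) ^ 2 - 1 := by nlinarith
    positivity
  have hnp : n ≤ (p : ℝ) ^ 3 := by rw [hneq]; nlinarith
  have hpn : (p : ℝ) ^ 3 ≤ 4 / 3 * n := by
    rw [hneq]
    nlinarith [mul_nonneg hp0.le (by nlinarith : (0 : ℝ) ≤ (p : ℝ) ^ 2 - 4)]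
  set t : ℝ := 2 * s - 1 with ht
  have ht0 : 0 < t := by rw [ht]; linarith
  have hT0 : 0 ≤ t ^ (-(2 / 3) : ℝ) := Real.rpow_nonneg ht0.le _
  have hN0 : 0 ≤ n ^ (13 / 15 : ℝ) := Real.rpow_nonneg hn0.le _
  set X : Set (G p) :=
    {g | g ∈ S ∧ ∃ P : Sylow p (G p), s * p ≤ ({h | h ∈ S ∧ g⁻¹ * h ∈ P}.ncard : ℝ)} with hX
  set S' : Finset (G p) := Finset.univ.filter (fun g => g ∈ S) with hS'
  have hS'c : (S' : Set (G p)) = S := by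
    ext g
    rw [Finset.mem_coe, hS', Finset.mem_filter]
    exact ⟨fun h => h.2, fun h => ⟨Finset.mem_univ _, h⟩⟩
  have hmemS' : ∀ g, g ∈ S' ↔ g ∈ S := by
    intro g
    rw [hS', Finset.mem_filter]
    exact ⟨fun h => h.2, fun h => ⟨Finset.mem_univ _, h⟩⟩
  have hXcard : (X.ncard : ℝ) ≤ n := by
    have h1 : X.ncard ≤ Nat.card (G p) := by
      rw [← Set.ncard_univ]
      exact Set.ncard_le_ncard (Set.subset_univ _) (Set.toFinite _)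
    rw [Nat.card_eq_fintype_card, Pool.Agent.Helper1.PFS.card_G] at h1
    rw [hn]
    exact_mod_cast h1
  -- rows for elements of X
  have hrow : ∀ g ∈ X, ∃ r : W p, r ≠ 0 ∧ s * p ≤ dl S' r (rmul r g) := by
    intro g hg
    obtain ⟨hgS, P, hP⟩ := hg
    obtain ⟨r, hr, hr2⟩ := hSW p S' g P
    rw [hS'c] at hr2
    exact ⟨r, hr, le_trans hP hr2⟩
  by_cases hs1 : 1 < s
  · have hXe : X = ∅ := by
      rw [Set.eq_empty_iff_forall_notMem]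
      intro g hg
      obtain ⟨r, hr, hr2⟩ := hrow g hg
      have h1 := dl_le hLN S' r (rmul r g) hr (rmul_ne r g hr)
      nlinarith
    rw [hXe, Set.ncard_empty]
    push_cast
    positivity
  push Not at hs1
  have ht1 : t ≤ 1 := by rw [ht]; linarith
  have hT1 : 1 ≤ t ^ (-(2 / 3) : ℝ) :=
    Real.one_le_rpow_of_pos_of_le_one_of_nonpos ht0 ht1 (by norm_num)
  have hB := numB p n hp0 hn0 hnp
  by_cases hpbig : (p : ℝ) ≤ 40000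
  · have h1 := numP p t hp0.le hpbig ht0 ht1
    calc (X.ncard : ℝ) ≤ n := hXcard
      _ ≤ (p : ℝ) ^ (2 / 5 : ℝ) * n ^ (13 / 15 : ℝ) := hB
      _ ≤ 200 * t ^ (-(2 / 3) : ℝ) * n ^ (13 / 15 : ℝ) := mul_le_mul_of_nonneg_right h1 hN0
  push Not at hpbig
  have hp4 : (40000 : ℝ) ≤ p := hpbig.le
  set s' : ℝ := (40000 / (p : ℝ)) ^ (1 / 5 : ℝ) with hs'
  have hs'0 : 0 < s' := Real.rpow_pos_of_pos (by positivity) _
  have hs'1 : s' ≤ 1 := by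
    apply Real.rpow_le_one (by positivity) _ (by norm_num)
    rw [div_le_one hp0]
    exact hp4
  have hs'5 : s' ^ 5 * p = 40000 := by
    rw [hs', ← Real.rpow_natCast, ← Real.rpow_mul (by positivity)]
    norm_num
  set K : ℝ := 2 * s' * p with hK
  have hK0 : 0 ≤ K := by positivity
  set F := FF S' s K with hF
  obtain ⟨hmu, hcount⟩ := hLT p S' s K hK0
  -- dense lines
  have hDD : ∀ e ∈ F, e.1 ≠ 0 ∧ e.2 ≠ 0 ∧ s * p ≤ dl S' e.1 e.2 := by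
    intro e he
    have h1 : e ∈ DD S' s := (Finset.mem_filter.mp he).1
    exact (Finset.mem_filter.mp h1).2
  have hpf' : ∀ x ∈ S', ∀ y ∈ S', x * y ∉ S' := by
    intro x hx y hy hxy
    rw [hmemS'] at hx hy hxy
    exact hpf x hx y hy hxy
  have hdn := hDN p S' hpf' F K s hK0 hmu hs hDD
  have hnu := hNU p F.card K s hpr (Nat.cast_nonneg _) hK0 hs hdn
  rcases hnu with hnu | hnu
  · -- the main case
    set X1 : Set (G p) := ((S'.filter fun g => ∃ r : W p, (r, rmul r g) ∈ F : Finset (G p)) :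
      Set (G p)) with hX1
    set X2 : Set (G p) := {g | g ∈ S ∧ ∃ x : Pt p, s' * (p * (p - 1)) ≤
      ({h | h ∈ S ∧ h • x = g • x}.ncard : ℝ)} with hX2
    have hsub : X ⊆ X1 ∪ X2 := by
      intro g hg
      obtain ⟨r, hr, hr2⟩ := hrow g hg
      have hgS : g ∈ S := hg.1
      have hgS' : g ∈ S' := (hmemS' g).mpr hgS
      by_cases hF' : (r, rmul r g) ∈ F
      · left
        rw [hX1, Finset.mem_coe, Finset.mem_filter]
        exact ⟨hgS', r, hF'⟩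
      · right
        have hD : (r, rmul r g) ∈ DD S' s := by
          unfold DD
          rw [Finset.mem_filter]
          exact ⟨Finset.mem_univ _, hr, rmul_ne r g hr, hr2⟩
        obtain ⟨x, hx⟩ := hHV p S' s s' K hs hs'0.le hK g hgS' r hD hF'
        rw [hS'c] at hx
        exact ⟨hgS, x, hx⟩
    have h1 : X.ncard ≤ X1.ncard + X2.ncard :=
      le_trans (Set.ncard_le_ncard hsub (Set.toFinite _)) (Set.ncard_union_le _ _)
    have h2 : (X.ncard : ℝ) ≤ X1.ncard + X2.ncard := by exact_mod_cast h1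
    have h3 : (X1.ncard : ℝ) ≤ 2 * F.card := by
      rw [hX1, Set.ncard_coe_finset]
      exact hcount
    have h4 : (X2.ncard : ℝ) ≤ 100 * s' ^ (-(1 / 2) : ℝ) * n ^ (5 / 6 : ℝ) :=
      hT2 p S hpf s' hs'0 hs'1 (by rw [hs'5])
    have h5 := numC p n hp4 hn0 hpn
    have h6 := numD p n t F.card hp4 hn0 hpn ht0 hnu
    have h7 : 100 * n ^ (13 / 15 : ℝ) ≤ 100 * (t ^ (-(2 / 3) : ℝ) * n ^ (13 / 15 : ℝ)) := by
      have := mul_le_mul_of_nonneg_right hT1 hN0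
      linarith
    have h8 : 0 ≤ t ^ (-(2 / 3) : ℝ) * n ^ (13 / 15 : ℝ) := mul_nonneg hT0 hN0
    rw [← hs'] at h5
    rw [mul_assoc]
    linarith
  · have h1 : (p : ℝ) ^ 3 < 1600 * (2 * (40000 / (p : ℝ)) ^ (1 / 5 : ℝ) * p) * p / t ^ 2 :=
      lt_of_lt_of_le hnu.1 hnu.2
    have h2 := numE p t hp4 ht0 h1
    calc (X.ncard : ℝ) ≤ n := hXcard
      _ ≤ (p : ℝ) ^ (2 / 5 : ℝ) * n ^ (13 / 15 : ℝ) := hB
      _ ≤ 30 * t ^ (-(2 / 3) : ℝ) * n ^ (13 / 15 : ℝ) := mul_le_mul_of_nonneg_right h2 hN0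
      _ ≤ 200 * t ^ (-(2 / 3) : ℝ) * n ^ (13 / 15 : ℝ) := by
          apply mul_le_mul_of_nonneg_right _ hN0
          linarith

end Pool.Agent.Helper8.SY
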