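import Pool.Agent.Helper94.SY.St

/-!
# Project SY (MP_5c9371_al), module M1 (estimate for balanced functions)
-/

set_option autoImplicit false

namespace Pool.Agent.Helper8.SY

open Pool.Agent.Helper94.SY Finset
open scoped Classical
open Pool.Agent.Helper1.PFS (G rmul lineSum StA pA rmul_smul)
open Pool.Agent.Helper70.EC (nsq PF TT StT2)

private theorem linesum_smul {p : ℕ} [Fact p.Prime] (h : G p → ℝ) (c : (ZMod p)ˣ) (x v : W p) :
    lineSum h (c • x) (c • v) = lineSum h x v := by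
  unfold lineSum
  refine Finset.sum_congr rfl fun g _ => ?_
  have h1 : rmul (c • x) g = c • rmul x g := by
    rw [Units.smul_def, Units.smul_def, rmul_smul]
  rw [h1]
  by_cases h2 : rmul x g = v
  · rw [if_pos h2, if_pos (by rw [h2])]
  · rw [if_neg h2, if_neg]
    intro h3
    exact h2 (smul_left_cancel c h3)

theorem hM1 : StTR → StM1 := by
  intro hTR p _ F K hK0 hmu f h hf hh
  have hp2 : 2 ≤ p := (Fact.out : p.Prime).two_le
  have hpr : (2 : ℝ) ≤ p := by exact_mod_cast hp2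
  have hp1 : (0 : ℝ) < (p : ℝ) - 1 := by linarith
  have hAf := pA p f hf
  have hAh := pA p h hh
  set A : W p → ℝ := fun r => ∑ x : W p, lineSum f r x ^ 2 with hAdef
  set B : W p → ℝ := fun v => ∑ x : W p, lineSum h x v ^ 2 with hBdef
  have hA0 : ∀ r, 0 ≤ A r := fun r => Finset.sum_nonneg fun x _ => sq_nonneg _
  have hB0 : ∀ v, 0 ≤ B v := fun v => Finset.sum_nonneg fun x _ => sq_nonneg _
  have hBc : ∀ (c : (ZMod p)ˣ) (v : W p), B (c • v) = B v := by
    intro c v
    show ∑ x : W p, lineSum h x (c • v) ^ 2 = ∑ x : W p, lineSum h x v ^ 2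
    rw [← Equiv.sum_comp (MulAction.toPerm c : Equiv.Perm (W p))
      (fun x => lineSum h x (c • v) ^ 2)]
    refine Finset.sum_congr rfl fun x _ => ?_
    rw [MulAction.toPerm_apply, linesum_smul]
  have hsumA : ∑ r, A r ≤ 2 * p * (p - 1) * nsq f := hAf
  have hsumB : ∑ v, B v ≤ 2 * p * (p - 1) * nsq h := by
    have e : ∑ v, B v = ∑ r : W p, ∑ v : W p, lineSum h r v ^ 2 := by
      rw [Finset.sum_comm]
    rw [e]
    exact hAh
  set T := ∑ e ∈ F, Real.sqrt (A e.1) * Real.sqrt (B e.2) with hT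
  have hT0 : 0 ≤ T := Finset.sum_nonneg fun e _ => by positivity
  have h1 : |TT f h (RR F)| ≤ T := by
    rw [hTR p F f h]
    refine le_trans (Finset.abs_sum_le_sum_abs _ _) (Finset.sum_le_sum fun e _ => ?_)
    rw [← Real.sqrt_mul (hA0 _)]
    apply Real.abs_le_sqrt
    exact Finset.sum_mul_sq_le_sq_mul_sq _ _ _
  have hcT : ∀ c : (ZMod p)ˣ, ∑ e : W p × W p,
      (if (e.1, (c : ZMod p) • e.2) ∈ F then (1 : ℝ) else 0) *
        (Real.sqrt (A e.1) * Real.sqrt (B e.2)) = T := by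
    intro c
    have e1 : T = ∑ e : W p × W p, (if e ∈ F then (1 : ℝ) else 0) *
        (Real.sqrt (A e.1) * Real.sqrt (B e.2)) := by
      rw [hT]
      simp only [ite_mul, one_mul, zero_mul]
      rw [← Finset.sum_filter]
      congr 1
      ext e
      simp
    rw [e1, ← Equiv.sum_comp ((Equiv.refl (W p)).prodCongr
      (MulAction.toPerm c : Equiv.Perm (W p))) (fun e : W p × W p => (if e ∈ F then (1 : ℝ) else 0) *
        (Real.sqrt (A e.1) * Real.sqrt (B e.2)))]
    refine Finset.sum_congr rfl fun e _ => ?_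
    simp only [Equiv.prodCongr_apply, Prod.map, Equiv.refl_apply, MulAction.toPerm_apply]
    rw [hBc, Units.smul_def]
  have hcard : (Fintype.card (ZMod p)ˣ : ℝ) = p - 1 := by
    rw [ZMod.card_units_eq_totient, Nat.totient_prime Fact.out, Nat.cast_sub (by omega),
      Nat.cast_one]
  have h2 : ((p : ℝ) - 1) * T = ∑ e : W p × W p, mu F e.1 e.2 *
      (Real.sqrt (A e.1) * Real.sqrt (B e.2)) := by
    have e1 : ∑ c : (ZMod p)ˣ, ∑ e : W p × W p,
        (if (e.1, (c : ZMod p) • e.2) ∈ F then (1 : ℝ) else 0) *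
        (Real.sqrt (A e.1) * Real.sqrt (B e.2)) = ((p : ℝ) - 1) * T := by
      rw [Finset.sum_congr rfl fun c _ => hcT c, Finset.sum_const, Finset.card_univ, nsmul_eq_mul,
        hcard]
    rw [← e1, Finset.sum_comm]
    refine Finset.sum_congr rfl fun e _ => ?_
    unfold mu
    rw [Finset.sum_mul]
  have hmu0 : ∀ r v, 0 ≤ mu F r v := by
    intro r v
    unfold mu
    refine Finset.sum_nonneg fun c _ => ?_
    split_ifs <;> norm_num
  have hsummu : ∑ e : W p × W p, mu F e.1 e.2 = ((p : ℝ) - 1) * F.card := by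
    have e1 : ∀ c : (ZMod p)ˣ, ∑ e : W p × W p,
        (if (e.1, (c : ZMod p) • e.2) ∈ F then (1 : ℝ) else 0) = F.card := by
      intro c
      have e2 : (F.card : ℝ) = ∑ e : W p × W p, (if e ∈ F then (1 : ℝ) else 0) := by
        rw [← Finset.sum_filter, Finset.sum_const, nsmul_eq_mul, mul_one]
        congr 2
        ext e
        simp
      rw [e2, ← Equiv.sum_comp ((Equiv.refl (W p)).prodCongr
        (MulAction.toPerm c : Equiv.Perm (W p))) (fun e : W p × W p => (if e ∈ F then (1 : ℝ) else 0))]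
      rfl
    unfold mu
    rw [Finset.sum_comm, Finset.sum_congr rfl fun c _ => e1 c, Finset.sum_const, Finset.card_univ,
      nsmul_eq_mul, hcard]
  have h3 : (((p : ℝ) - 1) * T) ^ 2 ≤ (∑ e : W p × W p, mu F e.1 e.2 ^ 2) *
      ∑ e : W p × W p, (Real.sqrt (A e.1) * Real.sqrt (B e.2)) ^ 2 := by
    rw [h2]
    exact Finset.sum_mul_sq_le_sq_mul_sq _ _ _
  have h4 : ∑ e : W p × W p, mu F e.1 e.2 ^ 2 ≤ K * (((p : ℝ) - 1) * F.card) := by
    rw [← hsummu, Finset.mul_sum]
    refine Finset.sum_le_sum fun e _ => ?_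
    rw [sq]
    exact mul_le_mul_of_nonneg_right (hmu _ _) (hmu0 _ _)
  have h5 : ∑ e : W p × W p, (Real.sqrt (A e.1) * Real.sqrt (B e.2)) ^ 2 =
      (∑ r, A r) * ∑ v, B v := by
    rw [Finset.sum_mul_sum, ← Finset.sum_product']
    rw [Finset.univ_product_univ]
    refine Finset.sum_congr rfl fun e _ => ?_
    rw [mul_pow, Real.sq_sqrt (hA0 _), Real.sq_sqrt (hB0 _)]
  have hnf : 0 ≤ nsq f := Finset.sum_nonneg fun g _ => sq_nonneg _
  have hnh : 0 ≤ nsq h := Finset.sum_nonneg fun g _ => sq_nonneg _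
  have h6 : (∑ r, A r) * ∑ v, B v ≤ (2 * p * (p - 1) * nsq f) * (2 * p * (p - 1) * nsq h) :=
    mul_le_mul hsumA hsumB (Finset.sum_nonneg fun v _ => hB0 v) (by positivity)
  have h7 : (((p : ℝ) - 1) * T) ^ 2 ≤ (K * (((p : ℝ) - 1) * F.card)) *
      ((2 * p * (p - 1) * nsq f) * (2 * p * (p - 1) * nsq h)) := by
    refine le_trans h3 ?_
    rw [h5]
    apply mul_le_mul h4 h6
    · exact mul_nonneg (Finset.sum_nonneg fun v _ => hA0 v) (Finset.sum_nonneg fun v _ => hB0 v)
    · positivity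
  have h8 : ((p : ℝ) - 1) ^ 2 * T ^ 2 ≤ ((p : ℝ) - 1) ^ 2 *
      (4 * (p : ℝ) ^ 2 * (K * (p - 1) * F.card) * nsq f * nsq h) := by
    have e1 : (((p : ℝ) - 1) * T) ^ 2 = ((p : ℝ) - 1) ^ 2 * T ^ 2 := by ring
    rw [e1] at h7
    refine le_trans h7 (le_of_eq ?_)
    ring
  have h9 := le_of_mul_le_mul_left h8 (by positivity : (0 : ℝ) < ((p : ℝ) - 1) ^ 2)
  refine le_trans ?_ h9
  rw [← sq_abs (TT f h (RR F))]
  exact pow_le_pow_left₀ (abs_nonneg _) h1 2

end Pool.Agent.Helper8.SY
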